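import Pool.Agent.Q17.DC.Stm

/-!
# Lemma job CON of project DC (helper17): contractibility
-/

set_option autoImplicit false

open scoped BigOperators Classical
open Pool.Agent.Y63.KR Pool.Agent.Q17.DC

noncomputable section

namespace Pool.Agent.Q223.DC

variable {Γ : Type} [Group Γ]

theorem conj_inf (g : Γ) (A B : Subgroup Γ) : conjSub g (A ⊓ B) = conjSub g A ⊓ conjSub g B := by
  ext x
  simp only [mem_conjSub, Subgroup.mem_inf]

theorem conj_self {g : Γ} {A : Subgroup Γ} (hg : g ∈ A) : conjSub g A = A := by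
  ext x
  rw [mem_conjSub]
  constructor
  · intro h
    have : x = g * (g⁻¹ * x * g) * g⁻¹ := by group
    rw [this]
    exact A.mul_mem (A.mul_mem hg h) (A.inv_mem hg)
  · intro h
    exact A.mul_mem (A.mul_mem (A.inv_mem hg) h) hg

theorem Ns_conj {X : Subgroup Γ} {g : Γ} (hg : g ∈ X) (σ : Set (Subgroup Γ)) :
    Ns X (conjSub g '' σ) = conjSub g (Ns X σ) := by
  unfold Ns
  rw [conj_inf, chainStabilizer_conj, conj_self hg]

theorem Ch_conj {p : ℕ} {X Z : Subgroup Γ} {σ : Set (Subgroup Γ)} (h : Ch p X Z σ)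
    (hZ : X ≤ Subgroup.normalizer (Z : Set Γ)) {g : Γ} (hg : g ∈ X) :
    Ch p X Z (conjSub g '' σ) := by
  refine ⟨?_, ?_, ?_, ?_⟩
  · rintro _ ⟨P, hP, rfl⟩ _ ⟨Q, hQ, rfl⟩ _
    rcases h.chain.total hP hQ with h1 | h1
    · exact Or.inl (conjSub_le h1)
    · exact Or.inr (conjSub_le h1)
  · rintro _ ⟨P, hP, rfl⟩
    exact (h.isp P hP).map _
  · rintro _ ⟨P, hP, rfl⟩
    have := conjSub_le (g := g) (h.le P hP)
    rwa [conj_self hg] at this
  · rintro _ ⟨P, hP, rfl⟩
    have h1 : conjSub g Z = Z := conjSub_eq_iff.2 (hZ hg)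
    have h2 := h.lt P hP
    rw [← h1]
    refine lt_of_le_of_ne (conjSub_le h2.le) fun h3 => h2.ne (conjSub_injective g h3)

theorem tog_Ch [Finite Γ] {p : ℕ} [Fact p.Prime] {X Z U : Subgroup Γ} {σ : Set (Subgroup Γ)}
    (h : Ch p X Z σ) (hU : IsPGroup p U) (hUX : U ≤ X) (hZU : Z < U)
    (hXU : X ≤ Subgroup.normalizer (U : Set Γ)) : Ch p X Z (toggle U σ) := by
  have hL := lower_cases h.chain U
  have hLX : lower U σ ≤ X := by
    rcases hL with h1 | h1
    · rw [h1]; exact bot_le
    · exact h.le _ h1.1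
  have hLp : IsPGroup p (lower U σ) := by
    rcases hL with h1 | h1
    · rw [h1]; exact IsPGroup.of_bot
    · exact h.isp _ h1.1
  have hTp : IsPGroup p (toggled U σ) := IsPGroup.to_sup_of_normal_right' hLp hU (hLX.trans hXU)
  have hTX : toggled U σ ≤ X := sup_le hLX hUX
  have hZT : Z < toggled U σ := lt_of_lt_of_le hZU (le_toggled U σ)
  by_cases hm : toggled U σ ∈ σ
  · have h1 : toggle U σ = σ \ {toggled U σ} := if_pos hm
    rw [h1]
    exact ⟨h.chain.mono Set.diff_subset, fun P hP => h.isp P hP.1, fun P hP => h.le P hP.1,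
      fun P hP => h.lt P hP.1⟩
  · have h1 : toggle U σ = insert (toggled U σ) σ := if_neg hm
    rw [h1]
    refine ⟨?_, ?_, ?_, ?_⟩
    · refine h.chain.insert fun P hP _ => ?_
      rcases comparable (U := U) h.chain hP with h2 | h2
      · exact Or.inr h2
      · exact Or.inl h2
    · rintro P (rfl | hP)
      · exact hTp
      · exact h.isp P hP
    · rintro P (rfl | hP)
      · exact hTX
      · exact h.le P hP
    · rintro P (rfl | hP)
      · exact hZT
      · exact h.lt P hP

theorem tog_stab_le [Finite Γ] {M U : Subgroup Γ} {σ : Set (Subgroup Γ)}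
    (h : IsChain (· ≤ ·) σ) (hMU : M ≤ Subgroup.normalizer (U : Set Γ)) :
    Ns M σ ≤ Ns M (toggle U σ) := by
  rintro g ⟨hg, hs⟩
  refine ⟨hg, ?_⟩
  have hs' := mem_chainStabilizer.1 hs
  refine mem_chainStabilizer.2 ?_
  have hU : conjSub g U = U := conjSub_eq_iff.2 (hMU hg)
  have hlow : conjSub g (lower U σ) = lower U σ := by
    rcases lower_cases h U with h1 | h1
    · rw [h1]
      exact Subgroup.map_bot _
    · exact hs' _ h1.1
  have hT : conjSub g (toggled U σ) = toggled U σ := by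
    unfold toggled
    have : conjSub g (lower U σ ⊔ U) = conjSub g (lower U σ) ⊔ conjSub g U :=
      Subgroup.map_sup _ _ _
    rw [this, hlow, hU]
  intro P hP
  unfold toggle at hP
  split_ifs at hP
  · exact hs' P hP.1
  · rcases hP with rfl | hP
    · exact hT
    · exact hs' P hP

theorem t_CON : Pool.Agent.Q17.DC.S_CON := by
  intro Γ _ _ p _ X M Z Q W hXM hMZ hMQ hZX hQX hZp hQp hQZ hW
  have : Fintype {σ : Set (Subgroup Γ) // Ch p X Z σ} := Fintype.ofFinite _
  set U : Subgroup Γ := Z ⊔ Q with hUdef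
  have hU : IsPGroup p U := IsPGroup.to_sup_of_normal_left' hZp hQp (hQX.trans (hXM.trans hMZ))
  have hUX : U ≤ X := sup_le hZX hQX
  have hZU : Z < U := by
    refine lt_of_le_of_ne le_sup_left fun h => hQZ ?_
    rw [h]
    exact le_sup_right
  have hMU : M ≤ Subgroup.normalizer (U : Set Γ) := by
    intro g hg
    rw [← conjSub_eq_iff]
    have h1 : conjSub g Z = Z := conjSub_eq_iff.2 (hMZ hg)
    have h2 : conjSub g Q = Q := conjSub_eq_iff.2 (hMQ hg)
    have : conjSub g (Z ⊔ Q) = conjSub g Z ⊔ conjSub g Q := Subgroup.map_sup _ _ _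
    rw [hUdef, this, h1, h2]
  have htog : ∀ σ, Ch p X Z σ → Ch p X Z (toggle U σ) := fun σ h =>
    tog_Ch h hU hUX hZU (hXM.trans hMU)
  have hNM : ∀ σ, Ch p X Z σ → Ns M (toggle U σ) = Ns M σ := by
    intro σ h
    apply le_antisymm
    · have := tog_stab_le (htog σ h).chain hMU
      rwa [toggle_toggle] at this
    · exact tog_stab_le h.chain hMU
  have hNX : ∀ σ, Ch p X Z σ → Ns X (toggle U σ) = Ns X σ := by
    intro σ h
    apply le_antisymm
    · have := tog_stab_le (htog σ h).chain (hXM.trans hMU)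
      rwa [toggle_toggle] at this
    · exact tog_stab_le h.chain (hXM.trans hMU)
  letI : MulAction X {σ : Set (Subgroup Γ) // Ch p X Z σ} :=
    { smul := fun g σ => ⟨conjSub (g : Γ) '' σ.1, Ch_conj σ.2 (hXM.trans hMZ) g.2⟩
      one_smul := fun σ => by
        apply Subtype.ext
        change conjSub (1 : Γ) '' σ.1 = σ.1
        have : (conjSub (1 : Γ)) = id := funext conjSub_one
        rw [this, Set.image_id]
      mul_smul := fun g h σ => by
        apply Subtype.ext
        change conjSub ((g : Γ) * h) '' σ.1 = conjSub (g : Γ) '' (conjSub (h : Γ) '' σ.1)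
        rw [← Set.image_comp]
        congr 1
        exact funext fun P => conjSub_mul (g : Γ) h P }
  have hsm : ∀ (g : X) (σ : {σ : Set (Subgroup Γ) // Ch p X Z σ}),
      (g • σ).1 = conjSub (g : Γ) '' σ.1 := fun _ _ => rfl
  have h := orbit_sum (G := X) (chX p X Z) (by
    intro σ τ
    change (∃ g ∈ X, τ.1 = conjSub g '' σ.1) ↔ _
    constructor
    · rintro ⟨g, hgX, hg⟩
      exact ⟨⟨g, hgX⟩, Subtype.ext (by rw [hsm, hg])⟩
    · rintro ⟨g, hg⟩
      exact ⟨g, g.2, by rw [← hg, hsm]⟩)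
    (fun σ => (-1) ^ σ.1.ncard * W (Ns X σ.1) (Ns M σ.1)) (by
      rintro σ τ ⟨g, hgX, hg⟩
      change (-1) ^ σ.1.ncard * W (Ns X σ.1) (Ns M σ.1) =
        (-1) ^ τ.1.ncard * W (Ns X τ.1) (Ns M τ.1)
      rw [hg, ncard_conj, Ns_conj hgX, Ns_conj (hXM hgX), hW σ.1 σ.2 g hgX])
  have hst : ∀ σ : {σ : Set (Subgroup Γ) // Ch p X Z σ},
      Nat.card (MulAction.stabilizer X σ) = Nat.card (Ns X σ.1) := by
    intro σ
    have key : ∀ g : X, g • σ = σ ↔ (g : Γ) ∈ chainStabilizer σ.1 := by
      intro g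
      rw [Subtype.ext_iff, hsm, mem_chainStabilizer]
      constructor
      · intro h3 P hP
        have hgP : conjSub (g : Γ) P ∈ σ.1 := by
          rw [← h3]
          exact ⟨P, hP, rfl⟩
        have hcard : Nat.card (conjSub (g : Γ) P) = Nat.card P :=
          Nat.card_congr
            (Subgroup.equivMapOfInjective _ _ (MulAut.conj (g : Γ)).injective).toEquiv.symm
        rcases σ.2.chain.total hgP hP with h4 | h4
        · exact Subgroup.eq_of_le_of_card_ge h4 hcard.ge
        · exact (Subgroup.eq_of_le_of_card_ge h4 hcard.le).symm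
      · intro h3
        ext P
        constructor
        · rintro ⟨Q, hQ, rfl⟩
          rw [h3 Q hQ]
          exact hQ
        · intro hP
          exact ⟨P, hP, h3 P hP⟩
    refine Nat.card_congr
      { toFun := fun g => ⟨g.1.1, g.1.2, (key g.1).1 (MulAction.mem_stabilizer_iff.1 g.2)⟩
        invFun := fun g => ⟨⟨g.1, g.2.1⟩,
          MulAction.mem_stabilizer_iff.2 ((key ⟨g.1, g.2.1⟩).2 g.2.2)⟩
        left_inv := fun g => rfl
        right_inv := fun g => rfl }
  have hzero : ∑ σ : {σ : Set (Subgroup Γ) // Ch p X Z σ},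
      (Nat.card (MulAction.stabilizer X σ) : ℤ) *
        ((-1) ^ σ.1.ncard * W (Ns X σ.1) (Ns M σ.1)) = 0 := by
    simp only [hst]
    have hinv : ∀ σ : {σ : Set (Subgroup Γ) // Ch p X Z σ},
        (Nat.card (Ns X (toggle U σ.1)) : ℤ) *
          ((-1) ^ (toggle U σ.1).ncard * W (Ns X (toggle U σ.1)) (Ns M (toggle U σ.1))) =
        - ((Nat.card (Ns X σ.1) : ℤ) * ((-1) ^ σ.1.ncard * W (Ns X σ.1) (Ns M σ.1))) := by
      intro σ
      rw [hNX σ.1 σ.2, hNM σ.1 σ.2, ncard_toggle]
      ring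
    refine Finset.sum_involution
      (fun σ _ => ⟨toggle U σ.1, htog σ.1 σ.2⟩) ?_ ?_ ?_ ?_
    · intro σ _
      change _ + (Nat.card (Ns X (toggle U σ.1)) : ℤ) *
          ((-1) ^ (toggle U σ.1).ncard * W (Ns X (toggle U σ.1)) (Ns M (toggle U σ.1))) = 0
      rw [hinv σ]
      ring
    · intro σ _ _ h
      have h1 : toggle U σ.1 = σ.1 := congrArg Subtype.val h
      have h2 := ncard_toggle U σ.1
      rw [h1] at h2
      have h3 : ((-1 : ℤ)) ^ σ.1.ncard ≠ 0 := pow_ne_zero _ (by norm_num)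
      omega
    · intro σ _
      exact Finset.mem_univ _
    · intro σ _
      apply Subtype.ext
      exact toggle_toggle U σ.1
  rw [hzero] at h
  have hX : (Nat.card X : ℤ) ≠ 0 := by
    have : 0 < Nat.card X := Nat.card_pos
    exact_mod_cast this.ne'
  exact (mul_eq_zero.1 h).resolve_left hX

end Pool.Agent.Q223.DC
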