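import Pool.Agent.Q17.DC.Stm

/-!
# Lemma job WORD of project DC (helper17): counting words modulo powers of a prime
-/

set_option autoImplicit false

open scoped BigOperators Classical

noncomputable section

namespace Pool.Agent.Q223.DC

/-- sum of an invariant function over the orbits of a permutation -/
theorem sum_orbits {X : Type} [Fintype X] (O : ValuationSubring ℂ) (τ : Equiv.Perm X)
    (F : X → ℂ) (hF : ∀ x, F (τ x) = F x) (hO : ∀ x, F x ∈ O) (q : ℕ)
    (hq : ∀ x, F x ≠ 0 → q ∣ Function.minimalPeriod (fun y => τ y) x) :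
    ∃ c ∈ O, ∑ x, F x = q * c := by
  classical
  let s : Setoid X := MulAction.orbitRel (Subgroup.zpowers τ) X
  have hpow : ∀ (z : Subgroup.zpowers τ) (x : X), F (z • x) = F x := by
    rintro ⟨z, hz⟩ x
    obtain ⟨n, rfl⟩ := Subgroup.mem_zpowers_iff.1 hz
    change F ((τ ^ n) x) = F x
    have hnat : ∀ (k : ℕ) (x : X), F ((τ ^ k) x) = F x := by
      intro k
      induction k with
      | zero => intro x; rfl
      | succ k ih =>
        intro x
        rw [pow_succ, Equiv.Perm.mul_apply, ih, hF]
    cases n with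
    | ofNat k => simpa using hnat k x
    | negSucc k =>
      have := hnat (k + 1) ((τ ^ (Int.negSucc k)) x)
      rw [← this, ← Equiv.Perm.mul_apply, zpow_negSucc]
      simp
  have key : ∀ ω : Quotient s, ∃ c ∈ O, ∑ x with (Quotient.mk s x) = ω, F x = q * c := by
    intro ω
    induction ω using Quotient.inductionOn with
    | _ x0 =>
    have h1 : ∀ x ∈ Finset.univ.filter (fun x => Quotient.mk s x = Quotient.mk s x0),
        F x = F x0 := by
      intro x hx
      have hx' := (Finset.mem_filter.1 hx).2
      have hr : s.r x x0 := Quotient.exact hx'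
      have hr' : x ∈ MulAction.orbit (Subgroup.zpowers τ) x0 := hr
      obtain ⟨z, hz⟩ := hr'
      rw [← hz]
      exact hpow z x0
    rw [Finset.sum_congr rfl h1, Finset.sum_const, nsmul_eq_mul]
    by_cases h0 : F x0 = 0
    · exact ⟨0, O.zero_mem, by rw [h0]; ring⟩
    · have hcard : (Finset.univ.filter (fun x => Quotient.mk s x = Quotient.mk s x0)).card
          = Function.minimalPeriod (fun y => τ y) x0 := by
        have e : Function.minimalPeriod (fun y => τ y) x0
            = Fintype.card (MulAction.orbit (Subgroup.zpowers τ) x0) := by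
          have := MulAction.minimalPeriod_eq_card (a := τ) (b := x0)
          exact this
        rw [e, ← Set.toFinset_card]
        congr 1
        ext x
        rw [Finset.mem_filter, Set.mem_toFinset]
        constructor
        · rintro ⟨_, h⟩
          have hr : s.r x x0 := Quotient.exact h
          exact hr
        · intro h
          exact ⟨Finset.mem_univ _, Quotient.sound (s := s) h⟩
      obtain ⟨d, hd⟩ := hq x0 h0
      refine ⟨d * F x0, O.mul_mem _ _ (natCast_mem O d) (hO x0), ?_⟩
      rw [hcard, hd]
      push_cast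
      ring
  choose c hc hsum using key
  refine ⟨∑ ω : Quotient s, c ω, sum_mem fun ω _ => hc ω, ?_⟩
  rw [Finset.mul_sum, ← Finset.sum_fiberwise (s := Finset.univ) (g := Quotient.mk s) (f := F)]
  exact Finset.sum_congr rfl fun ω _ => hsum ω

/-- the shift of words -/
def shf {Λ : Type} (γ : Equiv.Perm Λ) (N : ℕ) (w : Fin (N + 1) → Λ) : Fin (N + 1) → Λ :=
  Fin.snoc (α := fun _ => Λ) (fun i : Fin N => w i.succ) (γ (w 0))

theorem shf_castSucc {Λ : Type} (γ : Equiv.Perm Λ) (N : ℕ) (w : Fin (N + 1) → Λ) (i : Fin N) :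
    shf γ N w i.castSucc = w i.succ := by
  simp [shf]

theorem shf_last {Λ : Type} (γ : Equiv.Perm Λ) (N : ℕ) (w : Fin (N + 1) → Λ) :
    shf γ N w (Fin.last N) = γ (w 0) := by
  simp [shf]

theorem shf_inj {Λ : Type} (γ : Equiv.Perm Λ) (N : ℕ) : Function.Injective (shf γ N) := by
  intro w w' h
  funext i
  refine Fin.cases ?_ (fun i => ?_) i
  · have := congrFun h (Fin.last N)
    rw [shf_last, shf_last] at this
    exact γ.injective this
  · have := congrFun h i.castSucc
    rw [shf_castSucc, shf_castSucc] at this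
    exact this

theorem t_WORD : Pool.Agent.Q17.DC.S_WORD := by
  intro G Λ _ _ O π a h g γ M q hM ha hh hcl hπ haγ hyp
  obtain ⟨N, rfl⟩ : ∃ N, M = N + 1 := ⟨M - 1, by omega⟩
  let τ : Equiv.Perm (Fin (N + 1) → Λ) :=
    Equiv.ofBijective (shf γ N) ((Finite.injective_iff_bijective).1 (shf_inj γ N))
  have hτ : ∀ w, τ w = shf γ N w := fun w => rfl
  let F : (Fin (N + 1) → Λ) → ℂ := fun w =>
    (∏ i, a (w i)) * h (g * (List.ofFn fun i => π (w i)).prod)
  have hF : ∀ w, F (τ w) = F w := by
    intro w
    have e1 : (∏ i, a (τ w i)) = ∏ i, a (w i) := by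
      rw [Fin.prod_univ_castSucc, Fin.prod_univ_succ]
      simp only [hτ, shf_castSucc, shf_last, haγ]
      ring
    have e2 : (List.ofFn fun i => π (τ w i)).prod
        = (List.ofFn fun i : Fin N => π (w i.succ)).prod * (g * π (w 0) * g⁻¹) := by
      rw [List.ofFn_succ', List.concat_eq_append, List.prod_append, List.prod_singleton]
      simp only [hτ, shf_castSucc, shf_last, hπ]
    have e3 : (List.ofFn fun i => π (w i)).prod
        = π (w 0) * (List.ofFn fun i : Fin N => π (w i.succ)).prod := by
      rw [List.ofFn_succ, List.prod_cons]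
    change (∏ i, a (τ w i)) * h (g * (List.ofFn fun i => π (τ w i)).prod)
      = (∏ i, a (w i)) * h (g * (List.ofFn fun i => π (w i)).prod)
    rw [e1, e2, e3]
    congr 1
    set P := (List.ofFn fun i : Fin N => π (w i.succ)).prod
    rw [← hcl (g * (π (w 0) * P)) P, ← hcl (P * (g * (π (w 0) * P)) * P⁻¹) g]
    congr 1
    group
  have hO : ∀ w, F w ∈ O := fun w =>
    O.mul_mem _ _ (prod_mem fun i _ => ha (w i)) (hh _)
  refine sum_orbits O τ F hF hO q ?_
  intro w hw
  have hpos : 0 < Function.minimalPeriod (fun y => τ y) w := by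
    refine Function.minimalPeriod_pos_of_mem_periodicPts ?_
    have := MulAction.minimalPeriod_eq_card (a := τ) (b := w)
    have h2 : 0 < Fintype.card (MulAction.orbit (Subgroup.zpowers τ) w) :=
      Fintype.card_pos_iff.2 ⟨⟨w, MulAction.mem_orbit_self w⟩⟩
    rw [← this] at h2
    exact Function.minimalPeriod_pos_iff_mem_periodicPts.1 h2
  have hFit : ∀ j : ℕ, F ((fun y => τ y)^[j] w) = F w := by
    intro j
    induction j with
    | zero => rfl
    | succ j ih => rw [Function.iterate_succ_apply', hF, ih]
  let W : ℕ → Λ := fun j => (fun y => τ y)^[j] w 0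
  have hW : ∀ (i : ℕ) (hi : i < N + 1) (j : ℕ), (fun y => τ y)^[j] w ⟨i, hi⟩ = W (j + i) := by
    intro i
    induction i with
    | zero => intro hi j; rfl
    | succ i ih =>
      intro hi j
      have hi' : i < N := by omega
      have e := shf_castSucc γ N ((fun y => τ y)^[j] w) ⟨i, hi'⟩
      have e' : (Fin.succ ⟨i, hi'⟩ : Fin (N + 1)) = ⟨i + 1, hi⟩ := rfl
      have e'' : (Fin.castSucc ⟨i, hi'⟩ : Fin (N + 1)) = ⟨i, by omega⟩ := rfl
      rw [e', e''] at e
      rw [← e, ← hτ]
      have := ih (by omega) (j + 1)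
      rw [Function.iterate_succ_apply'] at this
      rw [this]
      congr 1
      omega
  refine hyp W ?_ ?_ ?_ _ hpos ?_
  · intro j
    have e := hW N (by omega) (j + 1)
    rw [Function.iterate_succ_apply'] at e
    have e2 := shf_last γ N ((fun y => τ y)^[j] w)
    have e3 : (Fin.last N) = (⟨N, by omega⟩ : Fin (N + 1)) := rfl
    rw [e3, ← hτ, e] at e2
    have e4 : j + (N + 1) = j + 1 + N := by omega
    rw [e4, e2]
  · intro j h0
    apply hw
    rw [← hFit j]
    have : (∏ i, a (((fun y => τ y)^[j] w) i)) = 0 :=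
      Finset.prod_eq_zero (Finset.mem_univ 0) h0
    change (∏ i, a (((fun y => τ y)^[j] w) i)) * _ = 0
    rw [this, zero_mul]
  · intro h0
    apply hw
    have e : (List.ofFn fun i => π (w i)) = (List.range (N + 1)).map fun i => π (W i) := by
      rw [List.ofFn_eq_map, ← List.map_coe_finRange_eq_range, List.map_map]
      refine List.map_congr_left ?_
      intro i _
      have := hW i.1 i.2 0
      simp only [Function.comp]
      rw [zero_add] at this
      rw [← this]
      rfl
    change (∏ i, a (w i)) * h (g * (List.ofFn fun i => π (w i)).prod) = 0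
    rw [e, h0, mul_zero]
  · intro j
    change (fun y => τ y)^[j + _] w 0 = (fun y => τ y)^[j] w 0
    rw [Function.iterate_add_apply, Function.iterate_minimalPeriod]

end Pool.Agent.Q223.DC
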